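import Pool.Agent.Helper43_LeoK.PshA

/-!
Squad leok, module PSH: the push forward of Lebesgue measure on quadruples at one real place.
-/

set_option autoImplicit false

open MeasureTheory Set

namespace Pool.Agent.LeoK.H43

theorem meas_qP : Measurable fun w : Fin 4 → ℝ => qP w := by
  unfold qP fP
  fun_prop

theorem meas_qM : Measurable fun w : Fin 4 → ℝ => qM w := by
  unfold qM fM fP fQ fR
  fun_prop

theorem meas_zero : MeasurableSet {w : Fin 4 → ℝ | w 0 = 0} :=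
  measurableSet_eq_fun (measurable_pi_apply 0) measurable_const

theorem inner_a {G : ℝ × ℝ × ℝ → ENNReal} (hGm : Measurable G) {a : ℝ} (ha : a ≠ 0) :
    (∫⁻ b : ℝ, ∫⁻ c : ℝ, ∫⁻ d : ℝ, G (b / a, b ^ 2 - a * c, fM a b c d)) =
      ∫⁻ u : ℝ × ℝ × ℝ, ENNReal.ofReal ((a ^ 2)⁻¹) *
        G (u.1, u.2.1, (4 * u.2.1 ^ 3 - u.2.2 ^ 2) / a ^ 2) := by
  have ha2 : (a ^ 2)⁻¹ ≠ 0 := inv_ne_zero (pow_ne_zero 2 ha)
  have hstep1 : ∀ b c : ℝ, (∫⁻ d : ℝ, G (b / a, b ^ 2 - a * c, fM a b c d)) =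
      ENNReal.ofReal ((a ^ 2)⁻¹) * ∫⁻ X : ℝ,
        G (b / a, b ^ 2 - a * c, (4 * (b ^ 2 - a * c) ^ 3 - X ^ 2) / a ^ 2) := by
    intro b c
    have hm : Measurable fun d : ℝ => G (b / a, b ^ 2 - a * c, fM a b c d) := by
      refine hGm.comp ?_
      refine Measurable.prodMk measurable_const (Measurable.prodMk measurable_const ?_)
      unfold fM fP fQ fR
      fun_prop
    rw [lint_affine ha2 (-(2 * b ^ 3 - 3 * a * b * c) / a ^ 2) hm, abs_of_pos (by positivity)]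
    congr 1
    refine lintegral_congr fun X => ?_
    have h2 : fM a b c ((a ^ 2)⁻¹ * X + -(2 * b ^ 3 - 3 * a * b * c) / a ^ 2) =
        (4 * (b ^ 2 - a * c) ^ 3 - X ^ 2) / a ^ 2 := by
      unfold fM fP fQ fR
      field_simp
      ring
    rw [h2]
  simp only [hstep1]
  -- the steps b, c
  obtain ⟨Φ, hΦ⟩ : ∃ Φ : ℝ → ℝ → ENNReal,
      Φ = fun β P => ∫⁻ X : ℝ, G (β, P, (4 * P ^ 3 - X ^ 2) / a ^ 2) := ⟨_, rfl⟩
  have hΦ' : ∀ β P, (∫⁻ X : ℝ, G (β, P, (4 * P ^ 3 - X ^ 2) / a ^ 2)) = Φ β P := by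
    intro β P
    rw [hΦ]
  have hΦm : Measurable fun z : ℝ × ℝ => Φ z.1 z.2 := by
    have h1 : Measurable fun y : (ℝ × ℝ) × ℝ => G (y.1.1, y.1.2, (4 * y.1.2 ^ 3 - y.2 ^ 2) / a ^ 2) :=
      hGm.comp (by fun_prop)
    rw [hΦ]
    exact h1.lintegral_prod_right'
  have hbc : ∫⁻ b : ℝ, ∫⁻ c : ℝ, Φ (b / a) (b ^ 2 - a * c) = ∫⁻ β : ℝ, ∫⁻ P : ℝ, Φ β P := by
    have hne : ENNReal.ofReal |a| ≠ 0 := by
      rw [Ne, ENNReal.ofReal_eq_zero, not_le]
      exact abs_pos.2 ha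
    rw [← ENNReal.mul_right_inj hne ENNReal.ofReal_ne_top, ← lintegral_const_mul' _ _
      ENNReal.ofReal_ne_top]
    have h3 : ∀ b : ℝ, ENNReal.ofReal |a| * ∫⁻ c : ℝ, Φ (b / a) (b ^ 2 - a * c) =
        ∫⁻ P : ℝ, Φ (b / a) P := by
      intro b
      have h4 : Measurable fun P => Φ (b / a) P := hΦm.comp (measurable_const.prodMk measurable_id)
      rw [lint_affine (neg_ne_zero.2 ha) (b ^ 2) h4, abs_neg]
      congr 1
      refine lintegral_congr fun c => ?_
      congr 1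
      ring
    simp only [h3]
    have h5 : Measurable fun b : ℝ => ∫⁻ P : ℝ, Φ (b / a) P := by
      have h6 : Measurable fun z : ℝ × ℝ => Φ (z.1 / a) z.2 :=
        hΦm.comp (by fun_prop : Measurable fun z : ℝ × ℝ => (z.1 / a, z.2))
      exact h6.lintegral_prod_right'
    rw [lint_mul ha h5]
    congr 1
    refine lintegral_congr fun β => ?_
    have h7 : a * β / a = β := by field_simp
    rw [h7]
  simp only [hΦ']
  have h8 : ∫⁻ b : ℝ, ∫⁻ c : ℝ, ENNReal.ofReal ((a ^ 2)⁻¹) * Φ (b / a) (b ^ 2 - a * c) =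
      ENNReal.ofReal ((a ^ 2)⁻¹) * ∫⁻ b : ℝ, ∫⁻ c : ℝ, Φ (b / a) (b ^ 2 - a * c) := by
    rw [← lintegral_const_mul' _ _ ENNReal.ofReal_ne_top]
    refine lintegral_congr fun b => ?_
    rw [← lintegral_const_mul' _ _ ENNReal.ofReal_ne_top]
  rw [h8, hbc, lintegral_const_mul' _ _ ENNReal.ofReal_ne_top]
  congr 1
  have hG3 : Measurable fun u : ℝ × ℝ × ℝ => G (u.1, u.2.1, (4 * u.2.1 ^ 3 - u.2.2 ^ 2) / a ^ 2) :=
    hGm.comp (by fun_prop)
  rw [show (volume : Measure (ℝ × ℝ × ℝ)) = (volume : Measure ℝ).prod volume from rfl,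
    lintegral_prod _ hG3.aemeasurable]
  refine lintegral_congr fun β => ?_
  have hG2 : Measurable fun v : ℝ × ℝ => G (β, v.1, (4 * v.1 ^ 3 - v.2 ^ 2) / a ^ 2) :=
    hGm.comp (by fun_prop)
  rw [show (volume : Measure (ℝ × ℝ)) = (volume : Measure ℝ).prod volume from rfl,
    lintegral_prod _ hG2.aemeasurable]
  simp only [hΦ]

/-- the main computation, for a function which vanishes outside `x, M > 0` -/
theorem psh_aux {g : ℝ × ℝ × ℝ → ENNReal} (hg : Measurable g)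
    (h0 : ∀ u : ℝ × ℝ × ℝ, ¬ (0 < u.2.1 ∧ 0 < u.2.2) → g u = 0) :
    (∫⁻ w : Fin 4 → ℝ, if w 0 = 0 then 0 else g (w 1 / w 0, qP w / Real.sqrt (qM w), qM w)) =
      ENNReal.ofReal Real.pi * ∫⁻ u, g u := by
  -- the functions `g (β, P / √M, M)`
  have hsqrt : Measurable Real.sqrt := Real.continuous_sqrt.measurable
  set G : ℝ × ℝ × ℝ → ENNReal := fun u => g (u.1, u.2.1 / Real.sqrt u.2.2, u.2.2) with hG
  have hGm : Measurable G := by
    refine hg.comp ?_
    refine measurable_fst.prodMk (Measurable.prodMk ?_ (measurable_snd.comp measurable_snd))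
    exact (measurable_fst.comp measurable_snd).div (hsqrt.comp (measurable_snd.comp measurable_snd))
  have hG0 : ∀ u : ℝ × ℝ × ℝ, ¬ (0 < u.2.1 ∧ 0 < u.2.2) → G u = 0 := by
    intro u hu
    refine h0 _ fun h => hu ⟨?_, h.2⟩
    have h1 : 0 < u.2.1 / Real.sqrt u.2.2 := h.1
    have h2 : 0 < Real.sqrt u.2.2 := Real.sqrt_pos.2 h.2
    exact (div_pos_iff_of_pos_right h2).1 h1
  have hmF : Measurable fun w : Fin 4 → ℝ =>
      if w 0 = 0 then 0 else g (w 1 / w 0, qP w / Real.sqrt (qM w), qM w) := by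
    refine Measurable.ite meas_zero measurable_const ?_
    exact hg.comp (Measurable.prodMk (by fun_prop)
      (Measurable.prodMk (meas_qP.div (hsqrt.comp meas_qM)) meas_qM))
  rw [lintegral_fin4 hmF]
  -- the inner integral
  have hK : Measurable fun z : ℝ × (ℝ × ℝ × ℝ) => ENNReal.ofReal ((z.1 ^ 2)⁻¹) *
      G (z.2.1, z.2.2.1, (4 * z.2.2.1 ^ 3 - z.2.2.2 ^ 2) / z.1 ^ 2) :=
    (Measurable.ennreal_ofReal (by fun_prop)).mul (hGm.comp (by fun_prop))
  have hinner : ∀ a : ℝ, (∫⁻ b : ℝ, ∫⁻ c : ℝ, ∫⁻ d : ℝ,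
      (if (![a, b, c, d] : Fin 4 → ℝ) 0 = 0 then 0 else
        g ((![a, b, c, d] : Fin 4 → ℝ) 1 / (![a, b, c, d] : Fin 4 → ℝ) 0,
          qP ![a, b, c, d] / Real.sqrt (qM ![a, b, c, d]), qM ![a, b, c, d]))) =
      ∫⁻ u : ℝ × ℝ × ℝ, ENNReal.ofReal ((a ^ 2)⁻¹) *
        G (u.1, u.2.1, (4 * u.2.1 ^ 3 - u.2.2 ^ 2) / a ^ 2) := by
    intro a
    have e0 : ∀ b c d : ℝ, (![a, b, c, d] : Fin 4 → ℝ) 0 = a := fun _ _ _ => rfl
    have e1 : ∀ b c d : ℝ, (![a, b, c, d] : Fin 4 → ℝ) 1 = b := fun _ _ _ => rfl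
    have e2 : ∀ b c d : ℝ, qP (![a, b, c, d] : Fin 4 → ℝ) = b ^ 2 - a * c := fun _ _ _ => rfl
    have e3 : ∀ b c d : ℝ, qM (![a, b, c, d] : Fin 4 → ℝ) = fM a b c d := fun _ _ _ => rfl
    simp only [e0, e1, e2, e3]
    by_cases ha : a = 0
    · subst ha
      simp
    · rw [← inner_a hGm ha]
      simp only [if_neg ha, hG]
  simp only [hinner]
  rw [lintegral_lintegral_swap hK.aemeasurable]
  -- integration over `a`
  have hA : ∀ u : ℝ × ℝ × ℝ, (∫⁻ a : ℝ, ENNReal.ofReal ((a ^ 2)⁻¹) *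
      G (u.1, u.2.1, (4 * u.2.1 ^ 3 - u.2.2 ^ 2) / a ^ 2)) =
      ENNReal.ofReal (1 / Real.sqrt (4 * u.2.1 ^ 3 - u.2.2 ^ 2)) *
        ∫⁻ M : ℝ, ENNReal.ofReal (1 / Real.sqrt M) * G (u.1, u.2.1, M) := by
    intro u
    exact lint_a (4 * u.2.1 ^ 3 - u.2.2 ^ 2) (k := fun M => G (u.1, u.2.1, M))
      (hGm.comp (by fun_prop)) fun M hM => hG0 _ fun h => absurd h.2 (not_lt.2 hM)
  simp only [hA]
  set Hh : ℝ → ℝ → ENNReal := fun β P =>
    ∫⁻ M : ℝ, ENNReal.ofReal (1 / Real.sqrt M) * G (β, P, M) with hHh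
  have hHm : Measurable fun z : ℝ × ℝ => Hh z.1 z.2 := by
    have : Measurable fun y : (ℝ × ℝ) × ℝ =>
        ENNReal.ofReal (1 / Real.sqrt y.2) * G (y.1.1, y.1.2, y.2) :=
      (Measurable.ennreal_ofReal (measurable_const.div (hsqrt.comp measurable_snd))).mul
        (hGm.comp (by fun_prop))
    exact this.lintegral_prod_right'
  have hm3 : Measurable fun u : ℝ × ℝ × ℝ =>
      ENNReal.ofReal (1 / Real.sqrt (4 * u.2.1 ^ 3 - u.2.2 ^ 2)) * Hh u.1 u.2.1 := by
    refine Measurable.mul (Measurable.ennreal_ofReal (measurable_const.div (hsqrt.comp ?_)))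
      (hHm.comp (by fun_prop : Measurable fun u : ℝ × ℝ × ℝ => (u.1, u.2.1)))
    fun_prop
  rw [show (volume : Measure (ℝ × ℝ × ℝ)) = (volume : Measure ℝ).prod volume from rfl,
    lintegral_prod _ hm3.aemeasurable, lintegral_prod _ hg.aemeasurable,
    ← lintegral_const_mul' _ _ ENNReal.ofReal_ne_top]
  refine lintegral_congr fun β => ?_
  have hm2 : Measurable fun v : ℝ × ℝ =>
      ENNReal.ofReal (1 / Real.sqrt (4 * v.1 ^ 3 - v.2 ^ 2)) * Hh β v.1 := by
    refine Measurable.mul (Measurable.ennreal_ofReal (measurable_const.div (hsqrt.comp ?_)))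
      (hHm.comp (by fun_prop : Measurable fun v : ℝ × ℝ => (β, v.1)))
    fun_prop
  have hg2 : Measurable fun v : ℝ × ℝ => g (β, v) :=
    hg.comp (by fun_prop)
  rw [show (volume : Measure (ℝ × ℝ)) = (volume : Measure ℝ).prod volume from rfl,
    lintegral_prod _ hm2.aemeasurable, lintegral_prod _ hg2.aemeasurable]
  simp only
  -- integration over `X`
  have hX : ∀ P : ℝ, (∫⁻ X : ℝ, ENNReal.ofReal (1 / Real.sqrt (4 * P ^ 3 - X ^ 2)) * Hh β P) =
      ENNReal.ofReal Real.pi * Hh β P := by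
    intro P
    rcases le_or_gt P 0 with hP | hP
    · have : Hh β P = 0 := by
        rw [hHh]
        simp only
        rw [lintegral_eq_zero_iff']
        · refine Filter.Eventually.of_forall fun M => ?_
          show ENNReal.ofReal (1 / Real.sqrt M) * G (β, P, M) = 0
          rw [hG0 _ fun h => absurd h.1 (not_lt.2 hP), mul_zero]
        · refine Measurable.aemeasurable ?_
          exact (Measurable.ennreal_ofReal (measurable_const.div hsqrt)).mul
            (hGm.comp (by fun_prop))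
      rw [this]
      simp
    · rw [lintegral_mul_const]
      · congr 1
        have hR : 0 < Real.sqrt (4 * P ^ 3) := Real.sqrt_pos.2 (by positivity)
        have h1 := lint_X hR
        rw [Real.sq_sqrt (by positivity)] at h1
        exact h1
      · exact Measurable.ennreal_ofReal (measurable_const.div (hsqrt.comp (by fun_prop)))
  simp only [hX]
  rw [lintegral_const_mul' _ _ ENNReal.ofReal_ne_top]
  congr 1
  -- swap `P` and `M`
  have hm4 : Measurable fun z : ℝ × ℝ => ENNReal.ofReal (1 / Real.sqrt z.2) * G (β, z.1, z.2) :=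
    (Measurable.ennreal_ofReal (measurable_const.div (hsqrt.comp measurable_snd))).mul
      (hGm.comp (by fun_prop))
  rw [hHh]
  simp only
  rw [lintegral_lintegral_swap hm4.aemeasurable, lintegral_lintegral_swap (f := fun x y => g (β, x, y))
    hg2.aemeasurable]
  refine lintegral_congr fun M => ?_
  rcases le_or_gt M 0 with hM | hM
  · have h1 : ∀ P, G (β, P, M) = 0 := fun P => hG0 _ fun h => absurd h.2 (not_lt.2 hM)
    have h2 : ∀ x, g (β, x, M) = 0 := fun x => h0 _ fun h => absurd h.2 (not_lt.2 hM)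
    simp only [h1, h2, mul_zero]
  · have hsM : 0 < Real.sqrt M := Real.sqrt_pos.2 hM
    rw [lintegral_const_mul' _ _ ENNReal.ofReal_ne_top]
    have h3 : Measurable fun P : ℝ => G (β, P, M) := hGm.comp (by fun_prop)
    rw [lint_mul hsM.ne' h3, abs_of_pos hsM, ← mul_assoc, ← ENNReal.ofReal_mul (by positivity),
      one_div_mul_cancel hsM.ne', ENNReal.ofReal_one, one_mul]
    refine lintegral_congr fun x => ?_
    rw [hG]
    simp only
    have h4 : Real.sqrt M * x / Real.sqrt M = x := by field_simp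
    rw [h4]

/-- PSH -/
theorem psh : PshStmt := by
  intro h hh
  obtain ⟨T, hT⟩ : ∃ T : Set (ℝ × ℝ × ℝ), T = {u | 0 < u.2.1 ∧ 0 < u.2.2} := ⟨_, rfl⟩
  have hTm : MeasurableSet T := by
    rw [hT]
    exact (measurableSet_lt measurable_const (measurable_fst.comp measurable_snd)).inter
      (measurableSet_lt measurable_const (measurable_snd.comp measurable_snd))
  have hmem : ∀ u : ℝ × ℝ × ℝ, u ∈ T ↔ (0 < u.2.1 ∧ 0 < u.2.2) := fun u => by rw [hT]; rfl
  have hSm : MeasurableSet {w : Fin 4 → ℝ | w 0 ≠ 0 ∧ 0 < qP w ∧ 0 < qM w} :=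
    meas_zero.compl.inter ((measurableSet_lt measurable_const meas_qP).inter
      (measurableSet_lt measurable_const meas_qM))
  have h1 := psh_aux (g := T.indicator h) (hh.indicator hTm)
    fun u hu => indicator_of_notMem (fun hc => hu ((hmem u).1 hc)) h
  rw [lintegral_indicator hTm, mul_comm, ← lintegral_mul_const' _ _ ENNReal.ofReal_ne_top] at h1
  rw [← hT, ← h1, ← lintegral_indicator hSm]
  refine lintegral_congr fun w => ?_
  by_cases hw : w 0 = 0
  · rw [if_pos hw, indicator_of_notMem fun h => h.1 hw]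
  · rw [if_neg hw]
    by_cases h2 : 0 < qP w ∧ 0 < qM w
    · rw [indicator_of_mem (by exact ⟨hw, h2⟩), indicator_of_mem]
      exact (hmem _).2 ⟨div_pos h2.1 (Real.sqrt_pos.2 h2.2), h2.2⟩
    · rw [indicator_of_notMem fun h => h2 h.2, indicator_of_notMem]
      intro h5
      obtain ⟨h3, h4⟩ := (hmem _).1 h5
      exact h2 ⟨(div_pos_iff_of_pos_right (Real.sqrt_pos.2 h4)).1 h3, h4⟩

end Pool.Agent.LeoK.H43
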