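import Pool.Agent.LeoK.UpStmts

/-!
Squad leok, module PSH: the push forward of Lebesgue measure on quadruples at one real place.
-/

set_option autoImplicit false

open MeasureTheory Set

namespace Pool.Agent.LeoK.H43

/-! ### one dimensional substitutions -/

theorem lint_mul {α : ℝ} (hα : α ≠ 0) {f : ℝ → ENNReal} (hf : Measurable f) :
    ∫⁻ y, f y = ENNReal.ofReal |α| * ∫⁻ x, f (α * x) := by
  have h1 : ∫⁻ y, f y = ∫⁻ y, f y ∂(ENNReal.ofReal |α| • Measure.map (fun x => α * x) volume) := by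
    rw [Real.smul_map_volume_mul_left hα]
  rw [h1, lintegral_smul_measure, lintegral_map hf (measurable_const_mul α), smul_eq_mul]

theorem lint_affine {α : ℝ} (hα : α ≠ 0) (β : ℝ) {f : ℝ → ENNReal} (hf : Measurable f) :
    ∫⁻ y, f y = ENNReal.ofReal |α| * ∫⁻ x, f (α * x + β) := by
  have h1 : ∫⁻ y, f y = ∫⁻ y, f (y + β) := (lintegral_add_right_eq_self f β).symm
  rw [h1]
  exact lint_mul hα (f := fun y => f (y + β)) (hf.comp (measurable_id.add_const β))

theorem lint_even {F : ℝ → ENNReal} (he : ∀ a, F (-a) = F a) :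
    ∫⁻ a, F a = 2 * ∫⁻ a in Ioi (0 : ℝ), F a := by
  have h1 : ∫⁻ a, F a = (∫⁻ a in Ioi (0 : ℝ), F a) + ∫⁻ a in (Ioi (0 : ℝ))ᶜ, F a :=
    (lintegral_add_compl F measurableSet_Ioi).symm
  have h2 : ∫⁻ a in (Ioi (0 : ℝ))ᶜ, F a = ∫⁻ a in Iio (0 : ℝ), F a := by
    rw [compl_Ioi]
    exact setLIntegral_congr Iio_ae_eq_Iic.symm
  have h3 : ∫⁻ a in Iio (0 : ℝ), F a = ∫⁻ a in Ioi (0 : ℝ), F a := by
    rw [← lintegral_indicator measurableSet_Iio, ← lintegral_indicator measurableSet_Ioi,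
      ← lintegral_neg_eq_self]
    refine lintegral_congr fun a => ?_
    by_cases h : 0 < a
    · rw [indicator_of_mem (by simpa using h), indicator_of_mem (by exact h), he]
    · rw [indicator_of_notMem (by simpa using h), indicator_of_notMem (by exact h)]
  rw [h1, h2, h3, two_mul]

/-- Step 4 -/
theorem lint_a (κ : ℝ) {k : ℝ → ENNReal} (hk : Measurable k) (h0 : ∀ M ≤ 0, k M = 0) :
    ∫⁻ a : ℝ, ENNReal.ofReal ((a ^ 2)⁻¹) * k (κ / a ^ 2) =
      ENNReal.ofReal (1 / Real.sqrt κ) * ∫⁻ M : ℝ, ENNReal.ofReal (1 / Real.sqrt M) * k M := by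
  rcases le_or_gt κ 0 with hκ | hκ
  · rw [Real.sqrt_eq_zero_of_nonpos hκ, div_zero, ENNReal.ofReal_zero, zero_mul]
    rw [lintegral_eq_zero_iff']
    · refine Filter.Eventually.of_forall fun a => ?_
      show ENNReal.ofReal ((a ^ 2)⁻¹) * k (κ / a ^ 2) = 0
      rw [h0 _ (div_nonpos_of_nonpos_of_nonneg hκ (sq_nonneg a)), mul_zero]
    · refine Measurable.aemeasurable ?_
      exact (Measurable.ennreal_ofReal (by fun_prop)).mul (hk.comp (by fun_prop))
  have hsκ : 0 < Real.sqrt κ := Real.sqrt_pos.2 hκ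
  have hmeas : Measurable fun a : ℝ => ENNReal.ofReal ((a ^ 2)⁻¹) * k (κ / a ^ 2) :=
    (Measurable.ennreal_ofReal (by fun_prop)).mul (hk.comp (by fun_prop))
  rw [lint_even fun a => by rw [neg_sq]]
  -- the substitution
  set f : ℝ → ℝ := fun M => Real.sqrt κ * (Real.sqrt M)⁻¹ with hf
  set f' : ℝ → ℝ := fun M => Real.sqrt κ * (-(1 / (2 * Real.sqrt M)) / (Real.sqrt M) ^ 2) with hf'
  have hder : ∀ M ∈ Ioi (0 : ℝ), HasDerivWithinAt f (f' M) (Ioi 0) M := by
    intro M hM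
    have hM' : 0 < M := hM
    refine HasDerivAt.hasDerivWithinAt ?_
    exact ((Real.hasDerivAt_sqrt hM'.ne').fun_inv (Real.sqrt_pos.2 hM').ne').const_mul _
  have hfpos : ∀ M : ℝ, 0 < M → 0 < f M := fun M hM =>
    mul_pos hsκ (inv_pos.2 (Real.sqrt_pos.2 hM))
  have hfsq : ∀ M : ℝ, 0 < M → f M ^ 2 = κ / M := by
    intro M hM
    rw [hf]
    simp only [mul_pow, inv_pow, Real.sq_sqrt hκ.le, Real.sq_sqrt hM.le]
    rw [div_eq_mul_inv]
  have hinj : InjOn f (Ioi 0) := by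
    intro M hM M' hM' h
    have hM1 : 0 < M := hM
    have hM2 : 0 < M' := hM'
    have h1 := congrArg (fun t => t ^ 2) h
    simp only [hfsq M hM1, hfsq M' hM2] at h1
    rw [div_eq_div_iff hM1.ne' hM2.ne'] at h1
    exact (mul_left_cancel₀ hκ.ne' h1).symm
  have himg : f '' (Ioi 0) = Ioi 0 := by
    ext a
    constructor
    · rintro ⟨M, hM, rfl⟩
      exact hfpos M hM
    · intro ha
      have ha' : 0 < a := ha
      refine ⟨κ / a ^ 2, by show 0 < κ / a ^ 2; positivity, ?_⟩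
      rw [hf]
      simp only
      rw [Real.sqrt_div hκ.le, Real.sqrt_sq ha'.le, inv_div]
      field_simp
  have hcv := lintegral_image_eq_lintegral_abs_deriv_mul measurableSet_Ioi hder hinj
    (fun a : ℝ => ENNReal.ofReal ((a ^ 2)⁻¹) * k (κ / a ^ 2))
  rw [himg] at hcv
  rw [hcv]
  -- restrict the right hand side
  have hR : ∫⁻ M : ℝ, ENNReal.ofReal (1 / Real.sqrt M) * k M =
      ∫⁻ M in Ioi (0 : ℝ), ENNReal.ofReal (1 / Real.sqrt M) * k M := by
    rw [← lintegral_indicator measurableSet_Ioi]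
    refine lintegral_congr fun M => ?_
    by_cases h : 0 < M
    · rw [indicator_of_mem (by exact h)]
    · rw [indicator_of_notMem (by exact h), h0 M (not_lt.1 h), mul_zero]
  rw [hR, ← lintegral_const_mul' 2 _ (by norm_num),
    ← lintegral_const_mul' (ENNReal.ofReal (1 / Real.sqrt κ)) _ ENNReal.ofReal_ne_top]
  refine setLIntegral_congr_fun measurableSet_Ioi fun M hM => ?_
  have hM' : 0 < M := hM
  have hsM : 0 < Real.sqrt M := Real.sqrt_pos.2 hM'
  rw [hfsq M hM']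
  have h1 : κ / (κ / M) = M := by field_simp
  rw [h1]
  have h2 : |f' M| = Real.sqrt κ / (2 * (Real.sqrt M * M)) := by
    rw [hf']
    simp only
    rw [abs_mul, abs_of_pos hsκ, neg_div, abs_neg, Real.sq_sqrt hM'.le, abs_of_pos (by positivity)]
    field_simp
  have key : ∀ A B C D K : ENNReal, 2 * (A * B) = C * D → 2 * (A * (B * K)) = C * (D * K) := by
    intro A B C D K h
    calc 2 * (A * (B * K)) = (2 * (A * B)) * K := by ring
      _ = (C * D) * K := by rw [h]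
      _ = C * (D * K) := by ring
  refine key _ _ _ _ _ ?_
  have h3 : (2 : ENNReal) = ENNReal.ofReal 2 := by simp
  rw [h2, h3, ← ENNReal.ofReal_mul (by positivity), ← ENNReal.ofReal_mul (by norm_num),
    ← ENNReal.ofReal_mul (by positivity)]
  congr 1
  have h4 : Real.sqrt κ * Real.sqrt κ = κ := Real.mul_self_sqrt hκ.le
  rw [inv_div, one_div, one_div]
  field_simp
  rw [pow_two, h4]

/-- Step 5 -/
theorem lint_X {R : ℝ} (hR : 0 < R) :
    ∫⁻ X : ℝ, ENNReal.ofReal (1 / Real.sqrt (R ^ 2 - X ^ 2)) = ENNReal.ofReal Real.pi := by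
  have h1 : ∫⁻ X : ℝ, ENNReal.ofReal (1 / Real.sqrt (R ^ 2 - X ^ 2)) =
      ∫⁻ X in Ioo (-R) R, ENNReal.ofReal (1 / Real.sqrt (R ^ 2 - X ^ 2)) := by
    rw [← lintegral_indicator measurableSet_Ioo]
    refine lintegral_congr fun X => ?_
    by_cases h : X ∈ Ioo (-R) R
    · rw [indicator_of_mem h]
    · rw [indicator_of_notMem h, Real.sqrt_eq_zero_of_nonpos, div_zero, ENNReal.ofReal_zero]
      by_contra hc
      apply h
      have h2 : X ^ 2 < R ^ 2 := by linarith [not_le.1 hc]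
      have h3 := abs_lt_of_sq_lt_sq h2 hR.le
      exact ⟨(abs_lt.1 h3).1, (abs_lt.1 h3).2⟩
  rw [h1]
  set f : ℝ → ℝ := fun θ => R * Real.sin θ with hf
  have hder : ∀ θ ∈ Ioo (-(Real.pi / 2)) (Real.pi / 2),
      HasDerivWithinAt f (R * Real.cos θ) (Ioo (-(Real.pi / 2)) (Real.pi / 2)) θ := by
    intro θ _
    exact ((Real.hasDerivAt_sin θ).const_mul R).hasDerivWithinAt
  have hinj : InjOn f (Ioo (-(Real.pi / 2)) (Real.pi / 2)) := by
    intro θ hθ θ' hθ' h
    have h2 : Real.sin θ = Real.sin θ' := mul_left_cancel₀ hR.ne' h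
    exact Real.injOn_sin (Ioo_subset_Icc_self hθ) (Ioo_subset_Icc_self hθ') h2
  have himg : f '' (Ioo (-(Real.pi / 2)) (Real.pi / 2)) = Ioo (-R) R := by
    ext X
    constructor
    · rintro ⟨θ, hθ, rfl⟩
      have h2 : -1 < Real.sin θ := by
        have := Real.sin_lt_sin_of_lt_of_le_pi_div_two (le_refl (-(Real.pi / 2))) hθ.2.le hθ.1
        rwa [Real.sin_neg, Real.sin_pi_div_two] at this
      have h3 : Real.sin θ < 1 := by
        have := Real.sin_lt_sin_of_lt_of_le_pi_div_two hθ.1.le le_rfl hθ.2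
        rwa [Real.sin_pi_div_two] at this
      constructor
      · show -R < R * Real.sin θ
        nlinarith
      · show R * Real.sin θ < R
        nlinarith
    · rintro ⟨h2, h3⟩
      have h4 : -1 < X / R := by rw [lt_div_iff₀ hR]; linarith
      have h5 : X / R < 1 := by rw [div_lt_iff₀ hR]; linarith
      refine ⟨Real.arcsin (X / R), ⟨Real.neg_pi_div_two_lt_arcsin.2 h4,
        Real.arcsin_lt_pi_div_two.2 h5⟩, ?_⟩
      show R * Real.sin (Real.arcsin (X / R)) = X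
      rw [Real.sin_arcsin h4.le h5.le]
      field_simp
  have hcv := lintegral_image_eq_lintegral_abs_deriv_mul measurableSet_Ioo hder hinj
    (fun X : ℝ => ENNReal.ofReal (1 / Real.sqrt (R ^ 2 - X ^ 2)))
  rw [himg] at hcv
  rw [hcv]
  have h6 : ∫⁻ θ in Ioo (-(Real.pi / 2)) (Real.pi / 2), ENNReal.ofReal |R * Real.cos θ| *
      ENNReal.ofReal (1 / Real.sqrt (R ^ 2 - f θ ^ 2)) =
      ∫⁻ _ in Ioo (-(Real.pi / 2)) (Real.pi / 2), 1 := by
    refine setLIntegral_congr_fun measurableSet_Ioo fun θ hθ => ?_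
    have hc : 0 < Real.cos θ := Real.cos_pos_of_mem_Ioo hθ
    have h7 : R ^ 2 - f θ ^ 2 = (R * Real.cos θ) ^ 2 := by
      rw [hf]
      simp only
      have := Real.sin_sq_add_cos_sq θ
      linear_combination (-R ^ 2) * this
    rw [h7, Real.sqrt_sq (by positivity), abs_of_pos (by positivity),
      ← ENNReal.ofReal_mul (by positivity), mul_one_div_cancel (by positivity), ENNReal.ofReal_one]
  rw [h6, setLIntegral_const, Real.volume_Ioo, one_mul]
  congr 1
  ring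

/-! ### iterated integrals -/

theorem lintegral_fin_succ {n : ℕ} {f : (Fin (n + 1) → ℝ) → ENNReal} (hf : Measurable f) :
    ∫⁻ w, f w = ∫⁻ a : ℝ, ∫⁻ w' : Fin n → ℝ, f (Fin.cons a w') := by
  have h1 := (volume_preserving_piFinSuccAbove (fun _ : Fin (n + 1) => ℝ) 0).symm
  have h2 := h1.lintegral_comp hf
  rw [← h2, show (volume : Measure (ℝ × (Fin n → ℝ))) = (volume : Measure ℝ).prod volume from rfl,
    lintegral_prod]
  · refine lintegral_congr fun a => lintegral_congr fun w' => ?_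
    show f (Fin.insertNth 0 a w') = f (Fin.cons a w')
    rw [Fin.insertNth_zero']
  · exact (hf.comp h1.measurable).aemeasurable

theorem lintegral_fin4 {f : (Fin 4 → ℝ) → ENNReal} (hf : Measurable f) :
    ∫⁻ w, f w = ∫⁻ a : ℝ, ∫⁻ b : ℝ, ∫⁻ c : ℝ, ∫⁻ d : ℝ, f ![a, b, c, d] := by
  have hcons : ∀ (n : ℕ) (a : ℝ), Measurable fun w' : Fin n → ℝ => (Fin.cons a w' : Fin (n + 1) → ℝ) := by
    intro n a
    refine measurable_pi_lambda _ fun i => ?_
    refine Fin.cases ?_ (fun j => ?_) i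
    · exact measurable_const
    · exact measurable_pi_apply j
  rw [lintegral_fin_succ hf]
  refine lintegral_congr fun a => ?_
  have h1 := hf.comp (hcons 3 a)
  rw [show (∫⁻ w' : Fin 3 → ℝ, f (Fin.cons a w')) = ∫⁻ w' : Fin 3 → ℝ,
    (f ∘ fun w' : Fin 3 → ℝ => (Fin.cons a w' : Fin 4 → ℝ)) w' from rfl, lintegral_fin_succ h1]
  refine lintegral_congr fun b => ?_
  have h2 := h1.comp (hcons 2 b)
  rw [show (∫⁻ w' : Fin 2 → ℝ, (f ∘ fun w' : Fin 3 → ℝ => (Fin.cons a w' : Fin 4 → ℝ))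
    (Fin.cons b w')) = ∫⁻ w' : Fin 2 → ℝ, ((f ∘ fun w' : Fin 3 → ℝ =>
      (Fin.cons a w' : Fin 4 → ℝ)) ∘ fun w' : Fin 2 → ℝ => (Fin.cons b w' : Fin 3 → ℝ)) w' from rfl,
    lintegral_fin_succ h2]
  refine lintegral_congr fun c => ?_
  have h3 := h2.comp (hcons 1 c)
  rw [show (∫⁻ w' : Fin 1 → ℝ, ((f ∘ fun w' : Fin 3 → ℝ =>
      (Fin.cons a w' : Fin 4 → ℝ)) ∘ fun w' : Fin 2 → ℝ => (Fin.cons b w' : Fin 3 → ℝ))
      (Fin.cons c w')) = ∫⁻ w' : Fin 1 → ℝ, (((f ∘ fun w' : Fin 3 → ℝ =>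
      (Fin.cons a w' : Fin 4 → ℝ)) ∘ fun w' : Fin 2 → ℝ => (Fin.cons b w' : Fin 3 → ℝ)) ∘
      fun w' : Fin 1 → ℝ => (Fin.cons c w' : Fin 2 → ℝ)) w' from rfl, lintegral_fin_succ h3]
  refine lintegral_congr fun d => ?_
  rw [lintegral_unique, Measure.volume_pi_eq_dirac, Measure.dirac_apply_of_mem (mem_univ _), mul_one]
  have : ∀ e : Fin 0 → ℝ, (Fin.cons a (Fin.cons b (Fin.cons c (Fin.cons d e))) : Fin 4 → ℝ) =
      ![a, b, c, d] := by
    intro e
    ext i
    fin_cases i <;> rfl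
  simp only [Function.comp]
  rw [this]


end Pool.Agent.LeoK.H43
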